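import Pool.Agent.AFJ.Stmts

/-!
# Row LAJ of tank AFJ: the jet of the fourth moment
-/

set_option autoImplicit false

open scoped BigOperators Matrix

noncomputable section

namespace Pool.Agent.AFJ.H13

open Pool.Agent.LE.QF Pool.Agent.AFJ

theorem dK_sq {X : Type} [Fintype X] [DecidableEq X] (G : Matrix X X ℂ) (c x y : X) :
    dK G c x y ^ 2 ≤ 4 * (KK G x y * KK G x c * KK G c y) := by
  unfold dK KK
  have h := Complex.abs_re_le_norm ((starRingEnd ℂ) (G x y) * G x c * G c y)
  rw [norm_mul, norm_mul, Complex.norm_conj] at h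
  have h2 : ((starRingEnd ℂ) (G x y) * G x c * G c y).re ^ 2 ≤
      (‖G x y‖ * ‖G x c‖ * ‖G c y‖) ^ 2 := by
    rw [← sq_abs]
    exact pow_le_pow_left₀ (abs_nonneg _) h 2
  calc (-(2 * ((starRingEnd ℂ) (G x y) * G x c * G c y).re)) ^ 2 =
      4 * ((starRingEnd ℂ) (G x y) * G x c * G c y).re ^ 2 := by ring
    _ ≤ 4 * (‖G x y‖ * ‖G x c‖ * ‖G c y‖) ^ 2 := mul_le_mul_of_nonneg_left h2 (by norm_num)
    _ = _ := by ring

theorem laj : LajStmt := by
  intro hJ hB X _ _ b R q Gm kf G κ mb x hBJ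
  obtain ⟨_, hK, _⟩ := hB hJ X b q Gm kf G κ mb hBJ
  obtain ⟨_, _, hadd, _, _, hsum, _, _⟩ := hJ b ℝ q
  have h1 : ∀ y ∈ R, HJ (fun r => KK (Gm r) x y * KK (Gm r) x y) q (KK G x y * KK G x y)
      (fun c : b => KK G x y * dK G (c : X) x y + dK G (c : X) x y * KK G x y)
      (KK G x y * (KK G * Matrix.diagonal (ind b) * KK G + EK G (mub G mb b)) x y +
        (KK G * Matrix.diagonal (ind b) * KK G + EK G (mub G mb b)) x y * KK G x y +
        ∑ c : b, dK G (c : X) x y * dK G (c : X) x y) := by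
    intro y _
    exact (hadd _ _ _ _ _ _ _ _ (hK x y) (hK x y)).2.2
  have h2 := hsum X R (fun y r => KK (Gm r) x y * KK (Gm r) x y) (fun y => KK G x y * KK G x y)
    (fun y => KK G x y * (KK G * Matrix.diagonal (ind b) * KK G + EK G (mub G mb b)) x y +
        (KK G * Matrix.diagonal (ind b) * KK G + EK G (mub G mb b)) x y * KK G x y +
        ∑ c : b, dK G (c : X) x y * dK G (c : X) x y)
    (fun y (c : b) => KK G x y * dK G (c : X) x y + dK G (c : X) x y * KK G x y) h1
  have hLa : ∀ G' : Matrix X X ℂ, LaR G' R x = ∑ y ∈ R, KK G' x y * KK G' x y := by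
    intro G'
    unfold LaR
    exact Finset.sum_congr rfl fun y _ => sq _
  have hF : (fun r => LaR (Gm r) R x) = fun r => ∑ y ∈ R, KK (Gm r) x y * KK (Gm r) x y := by
    funext r
    exact hLa (Gm r)
  have hKn : ∀ u v : X, 0 ≤ KK G u v := fun u v => by unfold KK; positivity
  have hdiag : ∀ y, (KK G * Matrix.diagonal (ind b) * KK G) x y =
      ∑ c ∈ b, KK G x c * KK G c y := by
    intro y
    rw [Matrix.mul_apply, ← Finset.sum_filter_add_sum_filter_not Finset.univ (fun c => c ∈ b)]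
    have e1 : ∑ c ∈ Finset.univ.filter (fun c => ¬ c ∈ b),
        (KK G * Matrix.diagonal (ind b)) x c * KK G c y = 0 := by
      apply Finset.sum_eq_zero
      intro c hc
      rw [Matrix.mul_diagonal]
      unfold ind
      rw [if_neg (Finset.mem_filter.1 hc).2]
      ring
    rw [e1, add_zero]
    have e2 : Finset.univ.filter (fun c => c ∈ b) = b := by
      ext c
      simp
    rw [e2]
    apply Finset.sum_congr rfl
    intro c hc
    rw [Matrix.mul_diagonal]
    unfold ind
    rw [if_pos hc]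
    ring
  refine ⟨fun c : b => ∑ k ∈ R, (KK G x k * dK G (c : X) x k + dK G (c : X) x k * KK G x k),
    ∑ k ∈ R, (KK G x k * (KK G * Matrix.diagonal (ind b) * KK G + EK G (mub G mb b)) x k +
        (KK G * Matrix.diagonal (ind b) * KK G + EK G (mub G mb b)) x k * KK G x k +
        ∑ c : b, dK G (c : X) x k * dK G (c : X) x k), ?_, ?_, ?_⟩
  · rw [hF, hLa G]
    exact h2
  · have e3 : 6 * (∑ y ∈ R, ∑ c ∈ b, KK G x y * KK G x c * KK G c y) +
        2 * ∑ y ∈ R, KK G x y * EK G (mub G mb b) x y =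
        ∑ y ∈ R, (6 * (∑ c ∈ b, KK G x y * KK G x c * KK G c y) +
          2 * (KK G x y * EK G (mub G mb b) x y)) := by
      rw [Finset.sum_add_distrib, Finset.mul_sum, Finset.mul_sum]
    rw [e3]
    apply Finset.sum_le_sum
    intro y _
    have e4 : (KK G * Matrix.diagonal (ind b) * KK G + EK G (mub G mb b)) x y =
        (∑ c ∈ b, KK G x c * KK G c y) + EK G (mub G mb b) x y := by
      rw [Matrix.add_apply, hdiag y]
    have e5 : ∑ c : b, dK G (c : X) x y * dK G (c : X) x y ≤
        4 * ∑ c ∈ b, KK G x y * KK G x c * KK G c y := by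
      rw [Finset.sum_coe_sort b (fun c => dK G c x y * dK G c x y), Finset.mul_sum]
      apply Finset.sum_le_sum
      intro c _
      have := dK_sq G c x y
      rw [sq] at this
      exact this
    have e6 : KK G x y * ∑ c ∈ b, KK G x c * KK G c y =
        ∑ c ∈ b, KK G x y * KK G x c * KK G c y := by
      rw [Finset.mul_sum]
      exact Finset.sum_congr rfl fun c _ => by ring
    rw [e4]
    have e7 : KK G x y * ((∑ c ∈ b, KK G x c * KK G c y) + EK G (mub G mb b) x y) =
        (∑ c ∈ b, KK G x y * KK G x c * KK G c y) + KK G x y * EK G (mub G mb b) x y := by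
      rw [mul_add, e6]
    have e8 : ((∑ c ∈ b, KK G x c * KK G c y) + EK G (mub G mb b) x y) * KK G x y =
        (∑ c ∈ b, KK G x y * KK G x c * KK G c y) + KK G x y * EK G (mub G mb b) x y := by
      rw [mul_comm, e7]
    rw [e7, e8]
    linarith
  · have k1 : ∀ c ∈ b, (∑ k ∈ R, (KK G x k * dK G c x k + dK G c x k * KK G x k)) ^ 2 ≤
        16 * LaR G R x * ∑ y ∈ R, KK G x y * KK G x c * KK G c y := by
      intro c _
      have k2 : ∑ k ∈ R, (KK G x k * dK G c x k + dK G c x k * KK G x k) =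
          2 * ∑ k ∈ R, KK G x k * dK G c x k := by
        rw [Finset.mul_sum]
        exact Finset.sum_congr rfl fun k _ => by ring
      have k3 := Finset.sum_mul_sq_le_sq_mul_sq R (fun k => KK G x k) (fun k => dK G c x k)
      have k4 : ∑ k ∈ R, dK G c x k ^ 2 ≤ 4 * ∑ y ∈ R, KK G x y * KK G x c * KK G c y := by
        rw [Finset.mul_sum]
        exact Finset.sum_le_sum fun k _ => dK_sq G c x k
      have k5 : 0 ≤ ∑ k ∈ R, KK G x k ^ 2 := Finset.sum_nonneg fun k _ => sq_nonneg _
      have k6 := mul_le_mul_of_nonneg_left k4 k5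
      have k7 : LaR G R x = ∑ k ∈ R, KK G x k ^ 2 := rfl
      rw [k2, k7, mul_pow]
      linarith
    have k8 : ∑ c : b, (∑ k ∈ R, (KK G x k * dK G (c : X) x k + dK G (c : X) x k * KK G x k)) ^ 2 =
        ∑ c ∈ b, (∑ k ∈ R, (KK G x k * dK G c x k + dK G c x k * KK G x k)) ^ 2 :=
      Finset.sum_coe_sort b
        (fun c => (∑ k ∈ R, (KK G x k * dK G c x k + dK G c x k * KK G x k)) ^ 2)
    rw [k8]
    refine le_trans (Finset.sum_le_sum k1) (le_of_eq ?_)
    rw [← Finset.mul_sum, Finset.sum_comm]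

end Pool.Agent.AFJ.H13
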